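import Pool.Graph.R_seed8.Helper227.SOC.Comp

set_option autoImplicit false

/-! # Strong omniscient reducibility between the Ramsey theorems -/

namespace Pool.Agent.KS6_67.SOC

open Pool.Agent.Helper227 Filter

/-- `{x | H x = true}` is infinite and homogeneous for the colouring `g` of the `n`-element sets. -/
def IsHomogeneous {k : ℕ} (n : ℕ) (g : Finset ℕ → Fin k) (H : ℕ → Bool) : Prop :=
  {x : ℕ | H x = true}.Infinite ∧
    ∃ col : Fin k, ∀ s : Finset ℕ, (∀ x ∈ s, H x = true) → s.card = n → g s = col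

/-- `RT^m_l ≤_soc RT^n_k`: for every colouring `f` of the `m`-element sets with `l` colours there
is a colouring `g` of the `n`-element sets with `k` colours such that every infinite
`g`-homogeneous set Turing-computes an infinite `f`-homogeneous set. -/
def SocReducible (m l n k : ℕ) : Prop :=
  ∀ f : Finset ℕ → Fin l, ∃ g : Finset ℕ → Fin k, ∀ H : ℕ → Bool, IsHomogeneous n g H →
    ∃ H' : ℕ → Bool, IsHomogeneous m f H' ∧
      TuringReducible (fun x => Part.some (H' x).toNat) (fun x => Part.some (H x).toNat)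

/-- The same with `H` itself homogeneous for `f`. -/
def IdReducible (m l n k : ℕ) : Prop :=
  ∀ f : Finset ℕ → Fin l, ∃ g : Finset ℕ → Fin k, ∀ H : ℕ → Bool, IsHomogeneous n g H →
    IsHomogeneous m f H

lemma IdReducible.soc {m l n k : ℕ} (h : IdReducible m l n k) : SocReducible m l n k := by
  intro f
  obtain ⟨g, hg⟩ := h f
  exact ⟨g, fun H hH => ⟨H, hg H hH, TuringReducible.refl _⟩⟩

lemma SocReducible.trans {a b c d p q : ℕ} (h1 : SocReducible a b c d)
    (h2 : SocReducible c d p q) : SocReducible a b p q := by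
  intro f
  obtain ⟨g, hg⟩ := h1 f
  obtain ⟨u, hu⟩ := h2 g
  refine ⟨u, fun H hH => ?_⟩
  obtain ⟨H', h3, h4⟩ := hu H hH
  obtain ⟨H'', h5, h6⟩ := hg H' h3
  exact ⟨H'', h5, h6.trans h4⟩

/-- Finite Ramsey theorem inside an infinite set. -/
theorem ramsey' {C : Type} [Finite C] (n r : ℕ) (c : Finset ℕ → C) (Y : Set ℕ) (hY : Y.Infinite) :
    ∃ (B : Finset ℕ) (col : C), ↑B ⊆ Y ∧ B.card = r ∧ ∀ X ⊆ B, X.card = n → c X = col := by
  classical
  have hne : (Filter.cofinite ⊓ 𝓟 Y).NeBot := by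
    have := hY.cofinite_inf_principal_neBot
    exact this
  let V : Ultrafilter ℕ := Ultrafilter.of (Filter.cofinite ⊓ 𝓟 Y)
  have hV : (V : Filter ℕ) ≤ Filter.cofinite ⊓ 𝓟 Y := Ultrafilter.of_le _
  have hVY : ∀ᶠ y in (V : Filter ℕ), y ∈ Y := (hV.trans inf_le_right) (mem_principal_self _)
  have hVc : ∀ F : Finset ℕ, ∀ᶠ y in (V : Filter ℕ), y ∉ F := by
    intro F
    refine (hV.trans inf_le_left) ?_
    have : {y : ℕ | ¬ y ∉ F}.Finite := F.finite_toSet.subset fun y hy => by simpa using hy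
    exact this
  have hlim : ∀ f : ℕ → C, ∃ i, ∀ᶠ y in (V : Filter ℕ), f y = i := by
    intro f
    by_contra hcon
    push Not at hcon
    have h1 : ∀ i, ∀ᶠ y in (V : Filter ℕ), f y ≠ i := hcon
    obtain ⟨y, hy⟩ := (Filter.eventually_all.2 h1).exists
    exact hy _ rfl
  choose L hL using hlim
  let cs : ℕ → Finset ℕ → C := fun m => Nat.rec c (fun _ f X => L fun y => f (insert y X)) m
  have hcs : ∀ m X, ∀ᶠ y in (V : Filter ℕ), cs m (insert y X) = cs (m + 1) X := fun m X => hL _
  let col := cs n ∅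
  have key : ∀ r, ∃ B : Finset ℕ, ↑B ⊆ Y ∧ B.card = r ∧
      ∀ m X, X ⊆ B → X.card + m = n → cs m X = col := by
    intro r
    induction r with
    | zero =>
      refine ⟨∅, by simp, rfl, fun m X hX hc => ?_⟩
      rw [Finset.subset_empty.1 hX] at hc ⊢
      simp only [Finset.card_empty, zero_add] at hc
      subst hc
      rfl
    | succ r ih =>
      obtain ⟨B, hB1, hB2, hB3⟩ := ih
      have a1 : ∀ᶠ y in (V : Filter ℕ), ∀ X ∈ B.powerset, ∀ m ∈ Finset.range n,
          cs m (insert y X) = cs (m + 1) X := by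
        rw [Filter.eventually_all_finset]
        intro X _
        rw [Filter.eventually_all_finset]
        intro m _
        exact hcs m X
      obtain ⟨y, h1, h2, h3⟩ := (a1.and (hVY.and (hVc B))).exists
      refine ⟨insert y B, ?_, ?_, ?_⟩
      · rw [Finset.coe_insert]
        exact Set.insert_subset h2 hB1
      · rw [Finset.card_insert_of_notMem h3, hB2]
      · intro m X hX hc
        by_cases hy : y ∈ X
        · have hX' : X.erase y ⊆ B := by
            intro x hx
            rw [Finset.mem_erase] at hx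
            exact (Finset.mem_insert.1 (hX hx.2)).resolve_left hx.1
          have hXi : insert y (X.erase y) = X := Finset.insert_erase hy
          have hc' : (X.erase y).card + 1 = X.card := Finset.card_erase_add_one hy
          have := h1 (X.erase y) (Finset.mem_powerset.2 hX') m (Finset.mem_range.2 (by omega))
          rw [hXi] at this
          rw [this]
          exact hB3 (m + 1) _ hX' (by omega)
        · refine hB3 m X ?_ hc
          intro x hx
          rcases Finset.mem_insert.1 (hX hx) with rfl | h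
          · exact absurd hx hy
          · exact h
  obtain ⟨B, h1, h2, h3⟩ := key r
  exact ⟨B, col, h1, h2, fun X hX hc => h3 0 X hX (by omega)⟩

/-- `RT^m_l` reduces to `RT^n_k` if `m < n` and `k ≥ 2`, by the identity on the solutions. -/
lemma id_of_lt {m l n k : ℕ} (hmn : m < n) (hk : 2 ≤ k) : IdReducible m l n k := by
  classical
  intro f
  let z0 : Fin k := ⟨0, by omega⟩
  let z1 : Fin k := ⟨1, by omega⟩
  have hz : z1 ≠ z0 := by simp [z0, z1]
  let P : Finset ℕ → Prop := fun s => ∀ X X', X ⊆ s → X' ⊆ s → X.card = m → X'.card = m → f X = f X'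
  refine ⟨fun s => if P s then z0 else z1, ?_⟩
  rintro H ⟨hinf, col, hcol⟩
  obtain ⟨B, c, hB1, hB2, hB3⟩ := ramsey' m n f _ hinf
  have hBP : P B := fun X X' h1 h2 h3 h4 => (hB3 X h1 h3).trans (hB3 X' h2 h4).symm
  have hcol0 : col = z0 := by
    rw [← hcol B (fun x hx => hB1 hx) hB2]
    simp [hBP]
  have hP : ∀ s : Finset ℕ, (∀ x ∈ s, H x = true) → s.card = n → P s := by
    intro s hs hc
    by_contra hn
    have := hcol s hs hc
    simp only [hn, if_false] at this
    exact hz (this.trans hcol0)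
  have hcon := Pool.Agent.Helper227.SOC.connect m f {x | H x = true} (by
    intro D hD hDc X X' h1 h2 h3 h4
    -- extend `D` to a set of size `n`
    obtain ⟨E, hE1, hE2, hE3⟩ : ∃ E : Finset ℕ, D ⊆ E ∧ (∀ x ∈ E, H x = true) ∧ E.card = n := by
      have hinf' : ({x | H x = true} \ (D : Set ℕ)).Infinite := hinf.sdiff D.finite_toSet
      obtain ⟨T, hT1, hT2⟩ := hinf'.exists_subset_card_eq (n - (m + 1))
      refine ⟨D ∪ T, Finset.subset_union_left, ?_, ?_⟩
      · intro x hx
        rcases Finset.mem_union.1 hx with h | h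
        · exact hD h
        · exact (hT1 h).1
      · rw [Finset.card_union_of_disjoint, hDc, hT2]
        · omega
        · rw [Finset.disjoint_right]
          intro x hx hxD
          exact (hT1 hx).2 hxD
    exact hP E hE2 hE3 X X' (h1.trans hE1) (h2.trans hE1) h3 h4)
  obtain ⟨T, hT1, hT2⟩ := hinf.exists_subset_card_eq m
  exact ⟨hinf, f T, fun s hs hc => hcon s T (fun x hx => hs x hx) hT1 hc hT2⟩

lemma id_of_le {n l k : ℕ} (h : l ≤ k) : IdReducible n l n k := by
  intro f
  refine ⟨fun s => Fin.castLE h (f s), ?_⟩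
  rintro H ⟨hinf, col, hcol⟩
  obtain ⟨T, hT1, hT2⟩ := hinf.exists_subset_card_eq n
  refine ⟨hinf, f T, fun s hs hc => ?_⟩
  have h1 := hcol s hs hc
  have h2 := hcol T (fun x hx => hT1 hx) hT2
  exact Fin.castLE_injective h (h1.trans h2.symm)

lemma id_of_trivial {m l n k : ℕ} (hk : 1 ≤ k) (h : l = 1 ∨ m = 0) : IdReducible m l n k := by
  intro f
  refine ⟨fun _ => ⟨0, hk⟩, ?_⟩
  rintro H ⟨hinf, -⟩
  refine ⟨hinf, f ∅, fun s _ hc => ?_⟩
  rcases h with rfl | rfl
  · exact Subsingleton.elim _ _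
  · rw [Finset.card_eq_zero.1 hc]

/-- One more colour is never reducible. -/
lemma not_soc {n k : ℕ} (hn : 1 ≤ n) : ¬ SocReducible n (k + 1) n k := by
  intro h
  obtain ⟨m0, rfl⟩ : ∃ m0, n = m0 + 1 := ⟨n - 1, by omega⟩
  obtain ⟨c0, hc0⟩ := Pool.Agent.Helper227.SOC.comp_main m0 k
  obtain ⟨g, hg⟩ := h c0
  obtain ⟨H, hH1, ⟨j, hH2⟩, hH3⟩ := hc0 g
  obtain ⟨Y, ⟨hY1, ⟨i, hY2⟩⟩, hY3⟩ := hg H ⟨hH1, ⟨j, hH2⟩⟩
  have hrec : Nat.RecursiveIn {chi H} (chi Y) := RecursiveIn.iff_nat.1 hY3
  exact hH3 Y hrec hY1 ⟨i, hY2⟩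

theorem classify {m l n k : ℕ} (hl : 1 ≤ l) (hk : 1 ≤ k) :
    (SocReducible m l n k ↔ l = 1 ∨ m = 0 ∨ (m < n ∧ 2 ≤ k) ∨ (m = n ∧ l ≤ k)) ∧
    (SocReducible m l n k ↔ IdReducible m l n k) := by
  have hpos : (l = 1 ∨ m = 0 ∨ (m < n ∧ 2 ≤ k) ∨ (m = n ∧ l ≤ k)) → IdReducible m l n k := by
    rintro (h | h | ⟨h1, h2⟩ | ⟨rfl, h⟩)
    · exact id_of_trivial hk (Or.inl h)
    · exact id_of_trivial hk (Or.inr h)
    · exact id_of_lt h1 h2
    · exact id_of_le h
  have hneg : SocReducible m l n k → (l = 1 ∨ m = 0 ∨ (m < n ∧ 2 ≤ k) ∨ (m = n ∧ l ≤ k)) := by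
    intro h
    by_contra hn
    push Not at hn
    obtain ⟨h1, h2, h3, h4⟩ := hn
    have hl2 : 2 ≤ l := by omega
    by_cases ht : k = 1 ∨ n = 0
    · have a1 : SocReducible m 2 m l := (id_of_le hl2).soc
      have a2 : SocReducible n k m 1 := (id_of_trivial le_rfl ht).soc
      exact not_soc (k := 1) (by omega) ((a1.trans h).trans a2)
    · push Not at ht
      rcases Nat.lt_trichotomy m n with hmn | hmn | hmn
      · have := h3 hmn
        omega
      · subst hmn
        have a1 : SocReducible m (k + 1) m l := (id_of_le (h4 rfl)).soc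
        exact not_soc (by omega) (a1.trans h)
      · have a1 : SocReducible n (k + 1) m 2 := (id_of_lt hmn le_rfl).soc
        have a2 : SocReducible m 2 m l := (id_of_le hl2).soc
        exact not_soc (by omega) ((a1.trans a2).trans h)
  exact ⟨⟨hneg, fun h => (hpos h).soc⟩, ⟨fun h => hpos (hneg h), fun h => h.soc⟩⟩

end Pool.Agent.KS6_67.SOC
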